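import Pool.Agent.W528.HS.Fin
import Pool.Agent.W715.HS.OC
import Pool.Agent.W273.HS.PJ
import Pool.Agent.W326.HS.EI
import Pool.Agent.W111.HS.EC
import Pool.Agent.W63.HS.TR
import Pool.Agent.W804.HS.RD

set_option autoImplicit false

namespace Pool.Agent.Results.MP_93fb11_ag.CyclicCoversModP

open Polynomial Pool.Agent.W528.HS

/-- **Semisimplicity of Frobenius on cyclic coverings of projective space of prime power degree.**

Let `κ` be a finite field with the `p ^ s`-th roots of unity, `Z : G = 0` a smooth hypersurface in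
`P^n` over `κ` whose degree is divisible by `p ^ s`, and `V : y ^ (p ^ s) = G` the cyclic covering
of `P^n` branched along `Z`. Let `P` be the characteristic polynomial of Frobenius on the primitive
cohomology of `Z`: it is integral, `P = ∏_{x ∈ B} (1 - x T)`, and the number of points of `Z` is
`∑_{i < n} |L| ^ i - (-1) ^ n ∑_{x ∈ B} x ^ [L : κ]`. The cohomology of `V` is that of `P^n` and the
sum of the parts `W` of degree `n` belonging to the characters of order `p ^ s` with the functions
`F = G ^ j`, `0 < j < p ^ s`; for the Frobenius `Φ` on `W` the Grothendieck-Lefschetz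
formula gives `(-1) ^ n tr(Φ ^ [L : κ]) = projSum`, the character sum over the points of `P^n`.

Theorem: if `H = (1 - T) P` modulo `p` (`n` even), `H = P / (1 - T)` modulo `p` (`n` odd), is
squarefree of degree `dim W`, then the eigenvalues of `Φ` are distinct and `Φ` is semisimple. -/
theorem result (p s : ℕ) (hp : p.Prime) (hs : 1 ≤ s)
    (κ : Type) [Field κ] [Fintype κ] (z : κ) (hz : IsPrimitiveRoot z (p ^ s)) (n : ℕ)
    (F : MvPolynomial (Fin (n + 1)) κ) (E : Type) [Field E] [CharZero E] [IsAlgClosed E]
    (μ : E) (hμ : IsPrimitiveRoot μ (p ^ s)) (P : ℤ[X]) (hP : P.coeff 0 = 1) (B : Multiset E)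
    (hB : P.map (Int.castRingHom E) = (B.map fun x => 1 - C x * X).prod)
    (hZ : ∀ (L : Type) [Field L] [Fintype L] [Algebra κ L],
      (projZero L (F.map (algebraMap κ L)) : E)
        = (∑ i ∈ Finset.range n, (Fintype.card L : E) ^ i)
          - (-1) ^ n * (B.map fun x => x ^ Module.finrank κ L).sum)
    (W : Type) [AddCommGroup W] [Module E W] [FiniteDimensional E W] (Φ : Module.End E W)
    (hΦ : ∀ (L : Type) [Field L] [Fintype L] [Algebra κ L],
      (-1) ^ n * LinearMap.trace E W (Φ ^ Module.finrank κ L)
        = projSum L E (p ^ s) (F.map (algebraMap κ L)) (algebraMap κ L z) μ)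
    (H : (ZMod p)[X]) (hH : Squarefree H) (hdim : H.natDegree = Module.finrank E W)
    (hev : Even n → H = (1 - X) * P.map (Int.castRingHom (ZMod p)))
    (hodd : Odd n → (1 - X) * H = P.map (Int.castRingHom (ZMod p))) :
    Φ.charpoly.Separable ∧ Φ.IsSemisimple :=
  semisimple_smooth Pool.Agent.W715.HS.OC.main Pool.Agent.W273.HS.PJ.main
    Pool.Agent.W326.HS.EI.main Pool.Agent.W111.HS.EC.main Pool.Agent.W63.HS.TR.main
    Pool.Agent.W804.HS.RD.main hp hs κ hz F hμ P hP B hB hZ Φ hΦ H hH hdim hev hodd

end Pool.Agent.Results.MP_93fb11_ag.CyclicCoversModP
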