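import Mathlib
import Pool.Agent.W534.FS5

/-!
# Semisimplicity of Frobenius in even degree: multiplicities, Hodge numbers and algebraic classes

Let `X` be a smooth projective variety over `F_q`, `q = p ^ a`. An eigenvalue of the Frobenius on
`H^{2r}(X̄, Q̄_ℓ)` is called a Tate eigenvalue if it is `q ^ r` times a root of unity.
`bound = a ∑_{i<r} (r-i) h^{i,2r-i}`.
-/

open Polynomial Module W534.FS

namespace Pool.Agent.Results.MP_93fb11_ag.EvenDegreeMultiplicities

theorem result {p a r : ℕ} (hp : p.Prime) {K V : Type*} [Field K] [CharZero K]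
    [IsAlgClosed K] [AddCommGroup V] [Module K V] [Module.Finite K V] (S : EvenH p a r K V) :
    -- (1) the multiplicities of pairwise non-conjugate eigenvalues which are not Tate eigenvalues
    -- add up to at most `a ∑_{i<r} (r-i) h^{i,2r-i}`
    (∀ Z : Finset K, (∀ z ∈ Z, S.F.HasEigenvalue z ∧ ¬ IsTate p (a * r) z) →
      (∀ z ∈ Z, ∀ z' ∈ Z, minpoly ℤ z = minpoly ℤ z' → z = z') →
      ∑ z ∈ Z, S.mult z ≤ S.bound) ∧
    -- (2) if the bound is at most one (`q = p` and `H^{2r}` of K3 type): simple eigenvalues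
    (S.bound ≤ 1 → ∀ α, ¬ IsTate p (a * r) α → S.mult α ≤ 1 ∧ S.SemisimpleAt α) ∧
    -- (3) bound two and two non-conjugate eigenvalues which are not Tate eigenvalues
    (S.bound ≤ 2 → (∃ β γ, S.F.HasEigenvalue β ∧ S.F.HasEigenvalue γ ∧
      ¬ IsTate p (a * r) β ∧ ¬ IsTate p (a * r) γ ∧ minpoly ℤ β ≠ minpoly ℤ γ) →
      ∀ α, ¬ IsTate p (a * r) α → S.mult α ≤ 1 ∧ S.SemisimpleAt α) ∧
    -- (4) local criteria at the Tate eigenvalues
    (∀ α : K, α ^ 2 = ((p : K) ^ (a * r)) ^ 2 → S.mult α ≤ finrank K (S.NS α) + 2 →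
      S.SemisimpleAt α) ∧
    (∀ α, IsTate p (a * r) α → S.mult α ≤ finrank K (S.NS α) + 1 → S.SemisimpleAt α) ∧
    (S.FewTate → ∀ α, IsTate p (a * r) α → S.SemisimpleAt α) ∧
    -- (5) full semisimplicity under (2) or (3) and a small defect at the Tate eigenvalues
    ((S.bound ≤ 1 ∨ (S.bound ≤ 2 ∧ ∃ β γ, S.F.HasEigenvalue β ∧ S.F.HasEigenvalue γ ∧
      ¬ IsTate p (a * r) β ∧ ¬ IsTate p (a * r) γ ∧ minpoly ℤ β ≠ minpoly ℤ γ)) →
      (S.FewTate ∨ S.SmallDefect) → S.Semisimple) ∧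
    -- (6) `b_{2r} ≤ dim N + 2`: semisimple
    (finrank K V ≤ finrank K S.N + 2 → S.Semisimple) ∧
    -- (7) `b_{2r} ≤ dim N + 3` and some eigenvalue is not Tate: semisimple
    (finrank K V ≤ finrank K S.N + 3 → (∃ α, S.F.HasEigenvalue α ∧ ¬ IsTate p (a * r) α) →
      S.Semisimple) ∧
    -- (8) `b_{2r} ≤ dim N + 4`, some eigenvalue is not Tate, bound at most one: semisimple
    (finrank K V ≤ finrank K S.N + 4 → (∃ α, S.F.HasEigenvalue α ∧ ¬ IsTate p (a * r) α) →
      S.bound ≤ 1 → S.Semisimple) := by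
  classical
  have h1 : ∀ Z : Finset K,
      (∀ z ∈ Z, S.F.HasEigenvalue z ∧ ¬ IsTate p (a * r) z) →
      (∀ z ∈ Z, ∀ z' ∈ Z, minpoly ℤ z = minpoly ℤ z' → z = z') → ∑ z ∈ Z, S.mult z ≤ S.bound :=
    fun Z hZ hd => S.sum_mult hp Z hZ hd
  have h2' : S.bound ≤ 1 → ∀ α, ¬ IsTate p (a * r) α → S.mult α ≤ 1 := by
    intro hg1 α hα
    by_cases h0 : S.mult α = 0
    · omega
    have he := S.toSurfaceH2.eigenvalue_of_mult (α := α) (Nat.pos_of_ne_zero h0)
    have := h1 {α} (by intro z hz; rw [Finset.mem_singleton] at hz; subst hz; exact ⟨he, hα⟩)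
      (by simp)
    rw [Finset.sum_singleton] at this
    omega
  have h3' : S.bound ≤ 2 → (∃ β γ, S.F.HasEigenvalue β ∧ S.F.HasEigenvalue γ ∧
      ¬ IsTate p (a * r) β ∧ ¬ IsTate p (a * r) γ ∧ minpoly ℤ β ≠ minpoly ℤ γ) →
      ∀ α, ¬ IsTate p (a * r) α → S.mult α ≤ 1 := by
    rintro hg2 ⟨β, γ, hβ, hγ, hβT, hγT, hne⟩ α hα
    by_cases h0 : S.mult α = 0
    · omega
    have he : S.F.HasEigenvalue α :=
      S.toSurfaceH2.eigenvalue_of_mult (α := α) (Nat.pos_of_ne_zero h0)
    have key : ∀ δ, S.F.HasEigenvalue δ → ¬ IsTate p (a * r) δ → minpoly ℤ α ≠ minpoly ℤ δ →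
        S.mult α ≤ 1 := by
      intro δ hδ hδT hαδ
      have hne' : α ≠ δ := fun h => hαδ (by rw [h])
      have h4 := h1 {α, δ} (by
        intro z hz
        simp only [Finset.mem_insert, Finset.mem_singleton] at hz
        rcases hz with hz | hz
        · rw [hz]; exact ⟨he, hα⟩
        · rw [hz]; exact ⟨hδ, hδT⟩) (by
        intro z hz z' hz' h
        simp only [Finset.mem_insert, Finset.mem_singleton] at hz hz'
        rcases hz with hz | hz
        · rcases hz' with hz' | hz'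
          · rw [hz, hz']
          · rw [hz, hz'] at h; exact absurd h hαδ
        · rcases hz' with hz' | hz'
          · rw [hz, hz'] at h; exact absurd h.symm hαδ
          · rw [hz, hz'])
      rw [Finset.sum_pair hne'] at h4
      have : 0 < S.mult δ := S.toSurfaceH2.mult_pos hδ
      omega
    by_cases hαβ : minpoly ℤ α = minpoly ℤ β
    · exact key γ hγ hγT (by rw [hαβ]; exact hne)
    · exact key β hβ hβT hαβ
  have hss : ∀ α, S.mult α ≤ 1 → S.SemisimpleAt α := fun α h => S.toSurfaceH2.ss_of_mult h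
  have hloc2 : ∀ α : K, α ^ 2 = ((p : K) ^ (a * r)) ^ 2 → S.mult α ≤ finrank K (S.NS α) + 2 →
      S.SemisimpleAt α := fun α h h' => S.toSurfaceH2.ss_local_two hp h h'
  have hloc1 : ∀ α, IsTate p (a * r) α → S.mult α ≤ finrank K (S.NS α) + 1 →
      S.SemisimpleAt α := fun α h h' => S.toSurfaceH2.ss_local hp h h'
  have h4 : S.FewTate → ∀ α, IsTate p (a * r) α → S.SemisimpleAt α :=
    fun hF α hα => S.toSurfaceH2.ss_tate hp hF hα
  have h5 : S.SmallDefect → ∀ α, IsTate p (a * r) α → S.SemisimpleAt α := by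
    intro hF α hα
    rcases hF α hα with h | ⟨h, h'⟩
    · exact hloc1 α hα h
    · exact hloc2 α h h'
  have hall' : (S.FewTate ∨ S.SmallDefect) → (∀ α, ¬ IsTate p (a * r) α → S.mult α ≤ 1) →
      S.Semisimple := by
    intro hF hm α
    by_cases hα : IsTate p (a * r) α
    · rcases hF with hF | hF
      · exact h4 hF α hα
      · exact h5 hF α hα
    · exact hss α (hm α hα)
  refine ⟨h1, fun hg1 α hα => ⟨h2' hg1 α hα, hss α (h2' hg1 α hα)⟩,
    fun hg2 hex α hα => ⟨h3' hg2 hex α hα, hss α (h3' hg2 hex α hα)⟩,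
    hloc2, hloc1, h4, ?_, ?_, ?_, ?_⟩
  · rintro (hg1 | ⟨hg2, hex⟩) hF
    · exact hall' hF (h2' hg1)
    · exact hall' hF (h3' hg2 hex)
  · intro hb
    apply hall' (Or.inl _)
    · intro α hα
      exact S.toSurfaceH2.mult_le_of_dim (by
        change finrank K V ≤ finrank K S.N + 3
        omega) hα
    · intro m hm
      exact (Submodule.finrank_le _).trans hb
  · rintro hb ⟨α, he, hα⟩
    apply hall' (Or.inl _)
    · intro β hβ
      exact S.toSurfaceH2.mult_le_of_dim hb hβ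
    · intro m hm
      have h6 := S.toSurfaceH2.dim_le he hα hm
      have h7 := S.toSurfaceH2.mult_pos he
      change finrank K ((S.F ^ m).maxGenEigenspace (((p : K) ^ (a * r)) ^ m)) + _ ≤ _ at h6
      omega
  · rintro hb ⟨α, he, hα⟩ hg1
    apply hall' (Or.inl _)
    · exact h2' hg1
    · intro m hm
      have h6 := S.toSurfaceH2.dim_le he hα hm
      have h7 := S.toSurfaceH2.mult_pos he
      change finrank K ((S.F ^ m).maxGenEigenspace (((p : K) ^ (a * r)) ^ m)) + _ ≤ _ at h6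
      omega

end Pool.Agent.Results.MP_93fb11_ag.EvenDegreeMultiplicities
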